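import Mathlib

namespace Pool.Agent.Results.MP_856411_pr.Never
open MeasureTheory Filter Finset
open scoped Classical

variable {V : Type} (G : SimpleGraph V) [G.LocallyFinite]

/-- net number of jumps from `x` to `y` before time `n` along the trajectory `w` -/
noncomputable def c (w : ℕ → V) (n : ℕ) (x y : V) : ℤ :=
  ∑ k ∈ range n, ((if w k = x ∧ w (k + 1) = y then 1 else 0) -
    (if w k = y ∧ w (k + 1) = x then 1 else 0))

/-- polynomial reinforcement -/
noncomputable def a (γ : ℝ) (z : ℤ) : ℝ :=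
  if 0 < z then (z : ℝ) ^ γ else if z = 0 then 1 else (-z : ℝ) ^ (-γ)

/-- probability of the step `w n → w (n+1)` given the history `w 0, …, w n` -/
noncomputable def step (γ : ℝ) (w : ℕ → V) (n : ℕ) : ℝ :=
  if G.Adj (w n) (w (n + 1)) then
    a γ (c w n (w n) (w (n + 1))) / ∑ y ∈ G.neighborFinset (w n), a γ (c w n (w n) y) else 0

/-- `X` is the walk with polynomial reinforcement started at `v` -/
def IsWalk (γ : ℝ) (v : V) {Ω : Type} [MeasurableSpace Ω] (P : Measure Ω) (X : Ω → ℕ → V) : Prop :=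
  (∀ n, @Measurable _ _ _ ⊤ (X · n)) ∧ (∀ᵐ ω ∂P, X ω 0 = v) ∧ ∀ (w : ℕ → V) (n : ℕ),
    P.real {ω | ∀ k ≤ n + 1, X ω k = w k} = P.real {ω | ∀ k ≤ n, X ω k = w k} * step G γ w n

/-- the trajectory `w` is trapped in a directed circuit (of length `m + 3`) -/
def Trapped (w : ℕ → V) : Prop :=
  ∃ (m : ℕ) (u : ZMod (m + 3) → V), Function.Injective u ∧ (∀ i, G.Adj (u i) (u (i + 1))) ∧
    ∃ (N : ℕ) (i : ZMod (m + 3)), ∀ j : ℕ, w (N + j) = u (i + j)

variable {G} {γ : ℝ} {w : ℕ → V}

lemma c_le (n : ℕ) (x y : V) : |c w n x y| ≤ n :=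
  (abs_sum_le_sum_abs _ _).trans ((sum_le_card_nsmul _ _ 1 fun k _ => by
    split_ifs <;> simp).trans (by simp))

lemma a_pos (z : ℤ) : 0 < a γ z := by
  unfold a
  split_ifs with h1 h2
  exacts [by positivity, one_pos, Real.rpow_pos_of_pos (by norm_cast; omega) _]

lemma a_bd (hγ : 0 ≤ γ) {z : ℤ} {n : ℕ} (hn : 1 ≤ n) (h : |z| ≤ n) :
    (n : ℝ) ^ (-γ) ≤ a γ z ∧ a γ z ≤ (n : ℝ) ^ γ := by
  have n1 : (1 : ℝ) ≤ n := by exact_mod_cast hn
  have b1 := Real.rpow_le_one_of_one_le_of_nonpos n1 (neg_nonpos.2 hγ)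
  have b2 := Real.one_le_rpow n1 hγ
  rw [abs_le] at h
  unfold a
  split_ifs with h1 h2
  · exact ⟨b1.trans (Real.one_le_rpow (by exact_mod_cast h1) hγ),
      Real.rpow_le_rpow (by positivity) (by exact_mod_cast h.2) hγ⟩
  · exact ⟨b1, b2⟩
  · exact ⟨Real.rpow_le_rpow_of_nonpos (by norm_cast; omega) (by norm_cast; omega) (neg_nonpos.2 hγ),
      (Real.rpow_le_one_of_one_le_of_nonpos (by norm_cast; omega) (neg_nonpos.2 hγ)).trans b2⟩

lemma step_le {n : ℕ} {y : V} {κ : ℝ} (hκ : 0 ≤ κ) (h1 : G.Adj (w n) y) (h2 : y ≠ w (n + 1))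
    (h3 : κ * a γ (c w n (w n) (w (n + 1))) ≤ a γ (c w n (w n) y)) :
    step G γ w n ≤ 1 - κ / (1 + κ) := by
  rw [show 1 - κ / (1 + κ) = 1 / (1 + κ) by field_simp; ring, step]
  split_ifs with h
  · have := sum_le_sum_of_subset_of_nonneg (s := {y, w (n + 1)}) (t := G.neighborFinset (w n))
      (f := fun y => a γ (c w n (w n) y)) (by simp [insert_subset_iff, h, h1])
      fun _ _ _ => (a_pos _).le
    rw [sum_pair h2] at this
    have := a_pos (γ := γ) (c w n (w n) (w (n + 1)))
    rw [div_le_div_iff₀ (by nlinarith) (by positivity)]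
    linarith
  · positivity

variable {v : V} {Ω : Type} [MeasurableSpace Ω] {P : Measure Ω} [IsProbabilityMeasure P]
  {X : Ω → ℕ → V} (hX : IsWalk G γ v P X)
include hX

lemma null {κ : ℝ} (hκ : 0 < κ) (N : ℕ) (h : ∀ n, step G γ w (n + N) ≤ 1 - κ / (n + N + 1)) :
    P {ω | X ω = w} = 0 := by
  rw [← measureReal_eq_zero_iff]
  by_contra h0
  have L := lt_of_le_of_ne measureReal_nonneg (Ne.symm h0)
  set p := fun n => P.real {ω | ∀ k ≤ n, X ω k = w k}
  have h1 : ∀ n, P.real {ω | X ω = w} * κ * (1 / (n + (N + 1) : ℕ)) ≤ p (n + N) - p (n + 1 + N) :=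
    fun n => by
      have a : P.real {ω | X ω = w} ≤ p (n + N) := measureReal_mono fun ω h k _ => congrFun h k
      have b := mul_le_mul_of_nonneg_left (h n) (L.le.trans a)
      have c := mul_le_mul_of_nonneg_right a (show 0 ≤ κ / (n + N + 1) by positivity)
      rw [add_right_comm, show p (n + N + 1) = _ from hX.2.2 w (n + N)]
      push_cast
      rw [mul_one_div, mul_div_assoc, ← add_assoc]
      linarith
  refine Real.not_summable_one_div_natCast ((summable_nat_add_iff (N + 1)).1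
    ((summable_mul_left_iff (mul_pos L hκ).ne').1 (summable_of_sum_range_le (c := 1)
      (fun n => by positivity) fun n => (sum_le_sum fun i _ => h1 i).trans ?_)))
  rw [sum_range_sub' fun i => p (i + N)]
  linarith [measureReal_le_one (μ := P) (s := {ω | ∀ k ≤ 0 + N, X ω k = w k}),
    measureReal_nonneg (μ := P) (s := {ω | ∀ k ≤ n + N, X ω k = w k})]

omit hX [G.LocallyFinite] in
lemma countable [Countable V] : {w | Trapped G w}.Countable :=
  (Set.countable_range fun (p : Σ m N : ℕ, (Fin N → V) × (ZMod (m + 3) → V) × ZMod (m + 3)) (n : ℕ) =>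
    if h : n < p.2.1 then p.2.2.1 ⟨n, h⟩ else p.2.2.2.1 (p.2.2.2.2 + (n - p.2.1 : ℕ))).mono
    (by
      rintro w ⟨m, u, -, -, N, i, h⟩
      refine ⟨⟨m, N, fun k => w k, u, i⟩, funext fun n => ?_⟩
      by_cases h1 : n < N <;> simp only [h1, dif_pos, dif_neg, not_false_iff]
      rw [← h, Nat.add_sub_of_le (not_lt.1 h1)])

theorem never [Countable V] (h0 : 0 ≤ γ) (h : γ ≤ 1 / 2 ∨ γ ≤ 1 ∧ ∀ x, 3 ≤ G.degree x) :
    P {ω | Trapped G (X ω)} = 0 := by
  refine measure_mono_null (t := ⋃ w ∈ {w | Trapped G w}, {ω | X ω = w}) (fun ω h => by simpa)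
    ((measure_biUnion_null_iff countable).2 fun w ⟨m, u, hu, adj, N, i, hw⟩ => ?_)
  have e0 : ∀ n, w (n + (N + 1)) = u (i + n + 1) := fun n => by
    rw [show n + (N + 1) = N + (n + 1) by ring, hw]; push_cast; rw [add_assoc]
  have e1 : ∀ n, w (n + (N + 1) + 1) = u (i + n + 1 + 1) := fun n => by
    rw [add_right_comm, e0]; push_cast; rw [← add_assoc]
  have up := fun n => (a_bd (n := n + (N + 1)) h0 (by omega)
    (c_le (w := w) _ (w (n + (N + 1))) (w (n + (N + 1) + 1)))).2
  have fin : ∀ (n : ℕ) (κ : ℝ), 0 < κ → κ ≤ 1 → 1 - κ / (n + (N + 1) : ℕ) /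
      (1 + κ / (n + (N + 1) : ℕ)) ≤ 1 - κ / (n + (N + 1 : ℕ) + 1) := fun n κ h1 h2 => by
    rw [div_div, mul_add, mul_div_cancel₀ _ (by positivity), mul_one]
    push_cast; gcongr
  rcases h with h | ⟨h, hd⟩
  · refine null hX one_pos (N + 1) fun n => le_trans (step_le (y := u (i + n)) (by positivity)
      (e0 n ▸ (adj _).symm) (fun e => ?_) (le_trans ?_ (a_bd (n := n + (N + 1)) h0 (by omega)
        (c_le _ _ _)).1)) (fin n 1 one_pos le_rfl)
    · have := (ZMod.natCast_eq_zero_iff 2 (m + 3)).1 (by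
        have := hu (e.trans (e1 n)); push_cast; linear_combination -this)
      exact absurd (Nat.le_of_dvd two_pos this) (by omega)
    · refine (mul_le_mul_of_nonneg_left (up n) (by positivity)).trans ?_
      rw [one_div, ← Real.rpow_neg_one, ← Real.rpow_add (by positivity)]
      exact Real.rpow_le_rpow_of_exponent_le (by norm_cast; omega) (by linarith)
  · refine null hX (κ := 1 / (N + 1)) (by positivity) (N + 1) fun n => ?_
    obtain ⟨y, hy, hy'⟩ := exists_mem_notMem_of_card_lt_card (s := {u (i + n), u (i + n + 1 + 1)})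
      (t := G.neighborFinset (w (n + (N + 1)))) (card_le_two.trans_lt (hd _))
    simp only [mem_insert, mem_singleton, not_or, SimpleGraph.mem_neighborFinset] at hy hy'
    have hc : c w (n + (N + 1)) (w (n + (N + 1))) y = c w N (w (n + (N + 1))) y := by
      rw [c, show n + (N + 1) = N + (n + 1) by ring, sum_range_add, c,
        sum_eq_zero (s := range (n + 1)) fun k _ => ?_, add_zero]
      rw [add_assoc N k, hw, hw, hw, if_neg, if_neg, sub_zero]
      · rintro ⟨h1, h2⟩
        refine hy'.1 (h1.symm.trans (congrArg u ?_))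
        have := hu h2; push_cast at this; linear_combination this
      · rintro ⟨h1, h2⟩
        refine hy'.2 (h2.symm.trans (congrArg u ?_))
        have := hu h1; push_cast at this ⊢; linear_combination this
    refine le_trans (step_le (y := y) (by positivity) hy (e1 n ▸ hy'.2) (le_trans ?_
      (a_bd (n := N + 1) h0 (by omega) (hc ▸ (c_le _ _ _).trans (by omega))).1))
      (fin n _ (by positivity) (by rw [div_le_one (by positivity)]; simp))
    refine (mul_le_mul_of_nonneg_left ((up n).trans (Real.rpow_le_self_of_one_le (by norm_cast; omega) h))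
      (by positivity)).trans ?_
    rw [div_mul_cancel₀ _ (by positivity), one_div, ← Real.rpow_neg_one]
    push_cast
    exact Real.rpow_le_rpow_of_exponent_le (by simp) (by linarith)

omit hX in
theorem result {V : Type} [Countable V] (G : SimpleGraph V) [G.LocallyFinite] (γ : ℝ) (h0 : 0 < γ)
    (h : γ ≤ 1 / 2 ∨ γ ≤ 1 ∧ ∀ x, 3 ≤ G.degree x) (v : V) {Ω : Type} [MeasurableSpace Ω]
    (P : Measure Ω) [IsProbabilityMeasure P] (X : Ω → ℕ → V) (hX : IsWalk G γ v P X) :
    P {ω | Trapped G (X ω)} = 0 := never hX h0.le h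

end Pool.Agent.Results.MP_856411_pr.Never
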